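import Mathlib

open Filter Topology
open scoped InnerProductSpace

namespace Pool.Agent.Q93.Sine

noncomputable section

variable {H : Type*} [NormedAddCommGroup H] [InnerProductSpace ℂ H] [CompleteSpace H]

/-- Abstract form: an isometry sending an orthonormal basis to an orthonormal family. -/
lemma exists_iso (s c : ℕ → H) (hs : Orthonormal ℂ s) (hsc : ∀ f : H, (∀ n, ⟪s n, f⟫_ℂ = 0) → f = 0)
    (hc : Orthonormal ℂ c) :
    ∃ P : H →ₗᵢ[ℂ] H, (∀ f, HasSum (fun n => ⟪s n, f⟫_ℂ • c n) (P f)) ∧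
      (∀ f, HasSum (fun n => ⟪s n, f⟫_ℂ • s n) f) := by
  have hbot : (Submodule.span ℂ (Set.range s))ᗮ = ⊥ := by
    rw [Submodule.eq_bot_iff]
    intro f hf
    apply hsc
    intro n
    exact (Submodule.mem_orthogonal _ _).1 hf _ (Submodule.subset_span ⟨n, rfl⟩)
  set B : HilbertBasis ℕ ℂ H := HilbertBasis.mkOfOrthogonalEqBot hs hbot with hB
  have hBs : ∀ n, B n = s n := fun n => by rw [hB, HilbertBasis.coe_mkOfOrthogonalEqBot]
  have hV := hc.orthogonalFamily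
  set V := hV.linearIsometry with hVdef
  refine ⟨V.comp B.repr.toLinearIsometry, fun f => ?_, fun f => ?_⟩
  · have := hV.hasSum_linearIsometry (B.repr f)
    have h2 : ∀ n, B.repr f n = ⟪s n, f⟫_ℂ := fun n => by rw [B.repr_apply_apply, hBs]
    simp only [h2, LinearIsometry.toSpanSingleton_apply] at this
    exact this
  · have := B.hasSum_repr f
    simp only [B.repr_apply_apply, hBs] at this
    exact this

lemma pow_apply_iso (P : H →ₗᵢ[ℂ] H) (n : ℕ) (g : H) :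
    ‖(P.toContinuousLinearMap ^ n) g‖ = ‖g‖ := by
  induction n with
  | zero => simp
  | succ n ih =>
    rw [pow_succ', mul_apply_eq_comp]
    rw [← ih]
    exact P.norm_map _

/-- The intersection of the ranges is trivial. -/
lemma ranges (s c : ℕ → H) (P : H →ₗᵢ[ℂ] H)
    (hP : ∀ f, HasSum (fun n => ⟪s n, f⟫_ℂ • c n) (P f))
    (hs : ∀ f, HasSum (fun n => ⟪s n, f⟫_ℂ • s n) f)
    (k : ℝ → H) (mu : ℝ → ℂ) (hmu : ∀ y, ‖mu y‖ < 1)
    (hk : ∀ y n, ⟪k y, c n⟫_ℂ = mu y * ⟪k y, s n⟫_ℂ)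
    (htot : ∀ f, (∀ y, ⟪k y, f⟫_ℂ = 0) → f = 0)
    (f : H) (hf : ∀ n : ℕ, ∃ g, (P.toContinuousLinearMap ^ n) g = f) : f = 0 := by
  apply htot
  intro y
  have h1 : ∀ g, ⟪k y, P g⟫_ℂ = mu y * ⟪k y, g⟫_ℂ := by
    intro g
    have a1 : HasSum (fun n => ⟪k y, ⟪s n, g⟫_ℂ • c n⟫_ℂ) ⟪k y, P g⟫_ℂ :=
      (hP g).mapL (innerSL ℂ (k y))
    have a2 : HasSum (fun n => ⟪k y, ⟪s n, g⟫_ℂ • s n⟫_ℂ) ⟪k y, g⟫_ℂ :=
      (hs g).mapL (innerSL ℂ (k y))
    have a3 := a2.mul_left (mu y)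
    have : (fun n => ⟪k y, ⟪s n, g⟫_ℂ • c n⟫_ℂ)
        = fun n => mu y * ⟪k y, ⟪s n, g⟫_ℂ • s n⟫_ℂ := by
      ext n
      rw [inner_smul_right, inner_smul_right, hk]
      ring
    rw [this] at a1
    exact a1.unique a3
  have h2 : ∀ n : ℕ, ∀ g, ⟪k y, (P.toContinuousLinearMap ^ n) g⟫_ℂ = mu y ^ n * ⟪k y, g⟫_ℂ := by
    intro n
    induction n with
    | zero => intro g; simp
    | succ n ih =>
      intro g
      rw [pow_succ', mul_apply_eq_comp]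
      have := h1 ((P.toContinuousLinearMap ^ n) g)
      calc ⟪k y, P.toContinuousLinearMap ((P.toContinuousLinearMap ^ n) g)⟫_ℂ
          = mu y * ⟪k y, (P.toContinuousLinearMap ^ n) g⟫_ℂ := this
        _ = _ := by rw [ih]; ring
  have h3 : ∀ n : ℕ, ‖⟪k y, f⟫_ℂ‖ ≤ ‖mu y‖ ^ n * (‖k y‖ * ‖f‖) := by
    intro n
    obtain ⟨g, hg⟩ := hf n
    have hn := pow_apply_iso P n g
    rw [← hg, h2, norm_mul, norm_pow, hn]
    gcongr
    exact norm_inner_le_norm _ _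
  have h4 : Tendsto (fun n : ℕ => ‖mu y‖ ^ n * (‖k y‖ * ‖f‖)) atTop (𝓝 0) := by
    have := (tendsto_pow_atTop_nhds_zero_of_lt_one (norm_nonneg _) (hmu y)).mul_const
      (‖k y‖ * ‖f‖)
    rwa [zero_mul] at this
  have h5 : ‖⟪k y, f⟫_ℂ‖ ≤ 0 := ge_of_tendsto' h4 h3
  exact norm_eq_zero.1 (le_antisymm h5 (norm_nonneg _))

/-- The orbit of `e` is total. -/
lemma orbit (s c : ℕ → H) (e : H) (P : H →ₗᵢ[ℂ] H)
    (hPs : ∀ n, P (s n) = c n)
    (hP : ∀ f, HasSum (fun n => ⟪s n, f⟫_ℂ • c n) (P f))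
    (hec : ∀ n, ⟪e, c n⟫_ℂ = 0)
    (hcomp : ∀ f, ⟪e, f⟫_ℂ = 0 → (∀ n, ⟪c n, f⟫_ℂ = 0) → f = 0)
    (hran : ∀ f : H, (∀ n : ℕ, ∃ g, (P.toContinuousLinearMap ^ n) g = f) → f = 0) :
    (Submodule.span ℂ (Set.range fun n : ℕ => (P.toContinuousLinearMap ^ n) e)).topologicalClosure
      = ⊤ := by
  rw [Submodule.topologicalClosure_eq_top_iff, Submodule.eq_bot_iff]
  intro f hf
  have hf' : ∀ n : ℕ, ⟪(P.toContinuousLinearMap ^ n) e, f⟫_ℂ = 0 := fun n =>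
    (Submodule.mem_orthogonal _ _).1 hf _ (Submodule.subset_span ⟨n, rfl⟩)
  apply hran
  have heP : ∀ g, ⟪e, P g⟫_ℂ = 0 := by
    intro g
    have a1 : HasSum (fun n => ⟪e, ⟪s n, g⟫_ℂ • c n⟫_ℂ) ⟪e, P g⟫_ℂ :=
      (hP g).mapL (innerSL ℂ e)
    have : (fun n => ⟪e, ⟪s n, g⟫_ℂ • c n⟫_ℂ) = fun _ => 0 := by
      ext n
      rw [inner_smul_right, hec, mul_zero]
    rw [this] at a1
    exact a1.unique hasSum_zero
  have step : ∀ f : H, (∀ n : ℕ, ⟪(P.toContinuousLinearMap ^ n) e, f⟫_ℂ = 0) →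
      ∃ g, P g = f ∧ ∀ n : ℕ, ⟪(P.toContinuousLinearMap ^ n) e, g⟫_ℂ = 0 := by
    intro f hf
    set g := (ContinuousLinearMap.adjoint P.toContinuousLinearMap) f with hg
    have hpg : P g = f := by
      have hz : f - P g = 0 := by
        apply hcomp
        · rw [inner_sub_right, heP, sub_zero]
          simpa using hf 0
        · intro n
          rw [inner_sub_right, ← hPs n, P.inner_map_map, hg,
            ContinuousLinearMap.adjoint_inner_right]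
          simp
      exact (sub_eq_zero.1 hz).symm
    refine ⟨g, hpg, fun n => ?_⟩
    have := hf (n + 1)
    rw [pow_succ', mul_apply_eq_comp, ← hpg] at this
    rw [← this]
    exact (P.inner_map_map _ _).symm
  have main : ∀ n : ℕ, ∀ f : H, (∀ n : ℕ, ⟪(P.toContinuousLinearMap ^ n) e, f⟫_ℂ = 0) →
      ∃ g, (P.toContinuousLinearMap ^ n) g = f ∧
        ∀ n : ℕ, ⟪(P.toContinuousLinearMap ^ n) e, g⟫_ℂ = 0 := by
    intro n
    induction n with
    | zero => intro f hf; exact ⟨f, by simp, hf⟩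
    | succ n ih =>
      intro f hf
      obtain ⟨g, hg, hg'⟩ := step f hf
      obtain ⟨u, hu, hu'⟩ := ih g hg'
      refine ⟨u, ?_, hu'⟩
      rw [pow_succ', mul_apply_eq_comp, hu]
      exact hg
  intro n
  obtain ⟨g, hg, _⟩ := main n f hf'
  exact ⟨g, hg⟩

end

end Pool.Agent.Q93.Sine
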