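import Mathlib

open MeasureTheory Set Real

namespace Pool.Agent.Q93.Sine

noncomputable section

/-- A square-integrable function on `(0,π)` whose `σ`-extension to `(-π,π)` has vanishing
Fourier coefficients is zero. -/
lemma ext_zero (f : ℝ → ℂ) (hf : MemLp f 2 (volume.restrict (Ioo 0 π))) (σ : ℂ)
    (h : ∀ n : ℤ, (∫ t in Ioo 0 π, Complex.exp (-(n * t * Complex.I)) * f t)
      + σ * (∫ t in Ioo 0 π, Complex.exp (n * t * Complex.I) * f t) = 0) :
    f =ᵐ[volume.restrict (Ioo 0 π)] 0 := by
  have hpi := Real.pi_pos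
  set F : ℝ → ℂ := (Ioo 0 π).indicator f with hF
  have hFL : MemLp F 2 volume := (memLp_indicator_iff_restrict measurableSet_Ioo).2 hf
  set g : ℝ → ℂ := fun t => F t + σ * F (-t) with hg
  have hFneg : MemLp (fun t => F (-t)) 2 volume :=
    hFL.comp_measurePreserving (Measure.measurePreserving_neg volume)
  have hgL : MemLp g 2 volume := hFL.add (hFneg.const_mul σ)
  have hab : -π < π := by linarith
  have hgL' : MemLp g 2 (volume.restrict (Ioc (-π) π)) := hgL.restrict _
  have hFi : Integrable F volume := by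
    have h1 : Integrable f (volume.restrict (Ioo 0 π)) := hf.integrable (by norm_num)
    exact (integrable_indicator_iff measurableSet_Ioo).2 h1
  have hFni : Integrable (fun t => F (-t)) volume := hFi.comp_neg
  have hexp : ∀ n : ℤ, ∀ x : ℝ, fourier (-n) (x : AddCircle (π - (-π)))
      = Complex.exp (-(n * x * Complex.I)) := by
    intro n x
    rw [fourier_coe_apply]
    congr 1
    have : ((π - -π : ℝ) : ℂ) = 2 * π := by push_cast; ring
    rw [this]
    have hpi' : (π : ℂ) ≠ 0 := by exact_mod_cast hpi.ne'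
    field_simp
    push_cast
    ring
  have hbdd : ∀ n : ℤ, ∀ G : ℝ → ℂ, Integrable G volume →
      Integrable (fun x : ℝ => Complex.exp (-(n * x * Complex.I)) * G x) volume := by
    intro n G hG
    refine hG.bdd_mul (c := 1) (Continuous.aestronglyMeasurable (by fun_prop)) ?_
    filter_upwards with x
    rw [show (-(n * x * Complex.I) : ℂ) = ((-(n * x) : ℝ) : ℂ) * Complex.I by push_cast; ring]
    rw [Complex.norm_exp_ofReal_mul_I]
  have hcoef : ∀ n : ℤ, fourierCoeffOn hab g n = 0 := by
    intro n
    rw [fourierCoeffOn_eq_integral]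
    have h1 : ∫ x in (-π)..π, fourier (-n) (x : AddCircle (π - (-π))) • g x = 0 := by
      rw [intervalIntegral.integral_of_le hab.le]
      simp only [hexp, smul_eq_mul]
      rw [setIntegral_eq_integral_of_forall_compl_eq_zero]
      · have e1 : ∀ x : ℝ, Complex.exp (-(n * x * Complex.I)) * g x
            = Complex.exp (-(n * x * Complex.I)) * F x
              + σ * (Complex.exp (-(n * x * Complex.I)) * F (-x)) := by
          intro x; simp only [hg]; ring
        simp only [e1]
        rw [integral_add (hbdd n F hFi) ((hbdd n _ hFni).const_mul σ), integral_const_mul]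
        have e2 : ∫ x : ℝ, Complex.exp (-(n * x * Complex.I)) * F (-x)
            = ∫ x : ℝ, Complex.exp (n * x * Complex.I) * F x := by
          rw [← integral_neg_eq_self (fun x : ℝ => Complex.exp (n * x * Complex.I) * F x)]
          congr 1
          ext x
          congr 2
          push_cast
          ring
        rw [e2]
        have e3 : ∀ G : ℝ → ℂ, ∫ x : ℝ, G x * F x = ∫ t in Ioo 0 π, G t * f t := by
          intro G
          rw [← integral_indicator measurableSet_Ioo]
          congr 1
          ext x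
          simp only [hF, indicator]
          split_ifs <;> simp
        rw [e3, e3]
        exact h n
      · intro x hx
        have hx1 : x ∉ Ioo 0 π := fun h' => hx ⟨by linarith [h'.1], h'.2.le⟩
        have hx2 : -x ∉ Ioo 0 π := fun h' => hx ⟨by linarith [h'.2], by linarith [h'.1]⟩
        simp only [hg, hF, indicator_of_notMem hx1, indicator_of_notMem hx2]
        simp
    rw [h1, smul_zero]
  have hsum := hasSum_sq_fourierCoeffOn hab hgL'
  simp only [hcoef, norm_zero, ne_eq, OfNat.ofNat_ne_zero, not_false_eq_true, zero_pow] at hsum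
  have hz := hsum.unique hasSum_zero
  have hint : ∫ x in Ioc (-π) π, ‖g x‖ ^ 2 = 0 := by
    rw [intervalIntegral.integral_of_le hab.le] at hz
    have : ((π - -π)⁻¹ : ℝ) ≠ 0 := by
      apply inv_ne_zero; linarith
    rcases smul_eq_zero.1 hz with h' | h'
    · exact absurd h' this
    · exact h'
  have hgi : Integrable (fun x => ‖g x‖ ^ 2) (volume.restrict (Ioc (-π) π)) :=
    hgL'.integrable_norm_pow (by norm_num)
  have hae := (integral_eq_zero_iff_of_nonneg (fun x => by positivity) hgi).1 hint
  have hae2 : g =ᵐ[volume.restrict (Ioo 0 π)] 0 := by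
    have hsub : Ioo 0 π ⊆ Ioc (-π) π := fun x hx => ⟨by linarith [hx.1], hx.2.le⟩
    have : (volume : Measure ℝ).restrict (Ioo 0 π) ≤ volume.restrict (Ioc (-π) π) :=
      Measure.restrict_mono hsub le_rfl
    have h2 := ae_mono this hae
    filter_upwards [h2] with x hx
    simpa using hx
  have hmem : ∀ᵐ x ∂(volume.restrict (Ioo 0 π)), x ∈ Ioo 0 π := ae_restrict_mem measurableSet_Ioo
  filter_upwards [hae2, hmem] with x hx hm
  have hx2 : -x ∉ Ioo 0 π := fun h' => by linarith [h'.1, hm.1]
  have : g x = f x := by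
    simp only [hg, hF, indicator_of_mem hm, indicator_of_notMem hx2]
    simp
  rw [this] at hx
  exact hx

/-- Integrability of `f` times an exponential. -/
lemma int_exp (f : ℝ → ℂ) (hf : MemLp f 2 (volume.restrict (Ioo 0 π))) (n : ℤ) :
    Integrable (fun t : ℝ => Complex.exp (n * t * Complex.I) * f t)
      (volume.restrict (Ioo 0 π)) := by
  have h1 : Integrable f (volume.restrict (Ioo 0 π)) := hf.integrable (by norm_num)
  refine h1.bdd_mul (c := 1) (Continuous.aestronglyMeasurable (by fun_prop)) ?_
  filter_upwards with x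
  rw [show (n * x * Complex.I : ℂ) = ((n * x : ℝ) : ℂ) * Complex.I by push_cast; ring]
  rw [Complex.norm_exp_ofReal_mul_I]

lemma int_exp' (f : ℝ → ℂ) (hf : MemLp f 2 (volume.restrict (Ioo 0 π))) (n : ℤ) :
    Integrable (fun t : ℝ => Complex.exp (-(n * t * Complex.I)) * f t)
      (volume.restrict (Ioo 0 π)) := by
  have := int_exp f hf (-n)
  convert this using 4
  push_cast
  ring

/-- Completeness of the sines. -/
lemma sine_zero (f : ℝ → ℂ) (hf : MemLp f 2 (volume.restrict (Ioo 0 π)))
    (h : ∀ n : ℕ, ∫ t in Ioo 0 π, (Real.sin ((n + 1 : ℕ) * t) : ℂ) * f t = 0) :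
    f =ᵐ[volume.restrict (Ioo 0 π)] 0 := by
  have key : ∀ n : ℤ, ∫ t in Ioo 0 π, (Real.sin (n * t) : ℂ) * f t = 0 := by
    intro n
    rcases lt_trichotomy n 0 with hn | hn | hn
    · obtain ⟨m, hm⟩ : ∃ m : ℕ, n = -((m + 1 : ℕ) : ℤ) := ⟨(-n - 1).toNat, by omega⟩
      have : ∀ t : ℝ, (Real.sin (n * t) : ℂ) * f t = -((Real.sin ((m + 1 : ℕ) * t) : ℂ) * f t) := by
        intro t
        rw [hm]
        push_cast
        rw [neg_mul, Complex.sin_neg]
        ring
      simp only [this]
      rw [integral_neg, h m, neg_zero]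
    · subst hn; simp
    · obtain ⟨m, hm⟩ : ∃ m : ℕ, n = ((m + 1 : ℕ) : ℤ) := ⟨(n - 1).toNat, by omega⟩
      have := h m
      rw [hm]
      exact_mod_cast this
  refine ext_zero f hf (-1) fun n => ?_
  have h1 : (∫ t in Ioo 0 π, Complex.exp (-(n * t * Complex.I)) * f t)
      + (-1) * (∫ t in Ioo 0 π, Complex.exp (n * t * Complex.I) * f t)
      = ∫ t in Ioo 0 π, (-2 * Complex.I) * ((Real.sin (n * t) : ℂ) * f t) := by
    rw [neg_one_mul, ← sub_eq_add_neg, ← integral_sub (int_exp' f hf n) (int_exp f hf n)]
    congr 1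
    ext t
    have : (Real.sin (n * t) : ℂ) = (Complex.exp (-(n * t * Complex.I))
        - Complex.exp (n * t * Complex.I)) * Complex.I / 2 := by
      push_cast
      rw [Complex.sin]
      ring_nf
    rw [this]
    ring_nf
    rw [Complex.I_sq]
    ring
  rw [h1, integral_const_mul, key n, mul_zero]

/-- Completeness of the cosines together with the constants. -/
lemma cosine_zero (f : ℝ → ℂ) (hf : MemLp f 2 (volume.restrict (Ioo 0 π)))
    (h : ∀ n : ℕ, ∫ t in Ioo 0 π, (Real.cos (n * t) : ℂ) * f t = 0) :
    f =ᵐ[volume.restrict (Ioo 0 π)] 0 := by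
  have key : ∀ n : ℤ, ∫ t in Ioo 0 π, (Real.cos (n * t) : ℂ) * f t = 0 := by
    intro n
    rcases Int.eq_nat_or_neg n with ⟨m, hm | hm⟩
    · have := h m
      rw [hm]
      exact_mod_cast this
    · have := h m
      have e : ∀ t : ℝ, (Real.cos (n * t) : ℂ) * f t = (Real.cos (m * t) : ℂ) * f t := by
        intro t
        rw [hm]
        push_cast
        rw [neg_mul, Complex.cos_neg]
      simp only [e]
      exact_mod_cast this
  refine ext_zero f hf 1 fun n => ?_
  have h1 : (∫ t in Ioo 0 π, Complex.exp (-(n * t * Complex.I)) * f t)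
      + 1 * (∫ t in Ioo 0 π, Complex.exp (n * t * Complex.I) * f t)
      = ∫ t in Ioo 0 π, 2 * ((Real.cos (n * t) : ℂ) * f t) := by
    rw [one_mul, ← integral_add (int_exp' f hf n) (int_exp f hf n)]
    congr 1
    ext t
    have : (Real.cos (n * t) : ℂ) = (Complex.exp (n * t * Complex.I)
        + Complex.exp (-(n * t * Complex.I))) / 2 := by
      push_cast
      rw [Complex.cos]
      ring_nf
    rw [this]
    ring
  rw [h1, integral_const_mul, key n, mul_zero]

end

end Pool.Agent.Q93.Sine
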