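import Mathlib

open MeasureTheory Set Real Filter Topology

namespace Pool.Agent.Q93.Sine

noncomputable section

/-- the Cayley map -/
def mob (z : ℂ) : ℂ := (1 - z) / (1 + z)

/-- `((1-z)/(1+z))^{iy}` -/
def FF (y : ℝ) (z : ℂ) : ℂ := Complex.exp (Complex.I * y * Complex.log (mob z))

/-- `tan(t/2)^{iy}` -/
def kk (y : ℝ) (t : ℝ) : ℂ := Complex.exp (((y * Real.log (Real.tan (t / 2)) : ℝ) : ℂ) * Complex.I)

lemma mob_slit {z : ℂ} (hz : ‖z‖ < 1) : mob z ∈ Complex.slitPlane := by
  left
  have h1 : (1 + z) ≠ 0 := by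
    intro h
    have : z = -1 := by linear_combination h
    rw [this] at hz
    simp at hz
  have h2 : (mob z).re = (1 - Complex.normSq z) / Complex.normSq (1 + z) := by
    unfold mob
    rw [Complex.div_re]
    rw [← add_div]
    congr 1
    simp [Complex.normSq_apply]
    ring
  rw [h2]
  apply div_pos
  · have : Complex.normSq z < 1 := by
      rw [Complex.normSq_eq_norm_sq]
      have := norm_nonneg z
      nlinarith
    linarith
  · exact Complex.normSq_pos.2 h1

lemma FF_diff (y : ℝ) : DifferentiableOn ℂ (FF y) (Metric.ball 0 1) := by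
  intro z hz
  have hz' : ‖z‖ < 1 := by simpa using hz
  have h1 : (1 + z) ≠ 0 := by
    intro h
    have : z = -1 := by linear_combination h
    rw [this] at hz'
    simp at hz'
  have hm : DifferentiableAt ℂ mob z := by
    unfold mob
    exact ((differentiableAt_const _).sub differentiableAt_id).div
      ((differentiableAt_const _).add differentiableAt_id) h1
  unfold FF
  exact (((hm.clog (mob_slit hz')).const_mul _).cexp).differentiableWithinAt

lemma FF_bound (y : ℝ) (z : ℂ) : ‖FF y z‖ ≤ Real.exp (|y| * π) := by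
  unfold FF
  rw [Complex.norm_exp]
  apply Real.exp_le_exp.2
  have : (Complex.I * y * Complex.log (mob z)).re = -(y * (mob z).arg) := by
    simp [Complex.mul_re, Complex.log_im]
  rw [this]
  have h1 := Complex.abs_arg_le_pi (mob z)
  calc -(y * (mob z).arg) ≤ |y * (mob z).arg| := neg_le_abs _
    _ = |y| * |(mob z).arg| := abs_mul _ _
    _ ≤ |y| * π := by gcongr

lemma kk_norm (y t : ℝ) : ‖kk y t‖ = 1 := by
  unfold kk
  exact Complex.norm_exp_ofReal_mul_I _

lemma exp_half (θ : ℝ) : Complex.exp (θ * Complex.I)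
    = (Complex.exp ((θ / 2 : ℝ) * Complex.I)) ^ 2 := by
  rw [← Complex.exp_nat_mul]
  congr 1
  push_cast
  ring

lemma mob_circle {θ : ℝ} (hθ : Real.cos (θ / 2) ≠ 0) :
    mob (Complex.exp (θ * Complex.I)) = -(Real.tan (θ / 2) : ℂ) * Complex.I := by
  unfold mob
  have hc : (Real.cos (θ / 2) : ℂ) ≠ 0 := by exact_mod_cast hθ
  set c : ℂ := (Real.cos (θ / 2) : ℂ) with hcdef
  set s : ℂ := (Real.sin (θ / 2) : ℂ) with hsdef
  have hcs : c ^ 2 + s ^ 2 = 1 := by
    rw [hcdef, hsdef]
    exact_mod_cast (by rw [add_comm]; exact Real.sin_sq_add_cos_sq (θ / 2) :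
      Real.cos (θ / 2) ^ 2 + Real.sin (θ / 2) ^ 2 = 1)
  have he : Complex.exp ((θ / 2 : ℝ) * Complex.I) = c + s * Complex.I := by
    rw [Complex.exp_mul_I, hcdef, hsdef, Complex.ofReal_cos, Complex.ofReal_sin]
  rw [exp_half, he, Real.tan_eq_sin_div_cos, Complex.ofReal_div, ← hsdef, ← hcdef]
  have h1 : 1 + (c + s * Complex.I) ^ 2 = 2 * c * (c + s * Complex.I) := by
    have := Complex.I_sq
    linear_combination (s ^ 2) * (-this) + (-1) * hcs + 2 * s^2 * this
  have h2 : 1 - (c + s * Complex.I) ^ 2 = -(2 * s * Complex.I) * (c + s * Complex.I) := by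
    have := Complex.I_sq
    linear_combination (s ^ 2) * this + (-1) * hcs
  have hne : c + s * Complex.I ≠ 0 := by
    rw [← he]; exact Complex.exp_ne_zero _
  rw [h1, h2]
  field_simp

lemma FF_up (y : ℝ) {θ : ℝ} (h0 : 0 < θ) (h1 : θ < π) :
    FF y (Complex.exp (θ * Complex.I)) = Real.exp (y * π / 2) * kk y θ := by
  have hc : 0 < Real.cos (θ / 2) := Real.cos_pos_of_mem_Ioo ⟨by linarith [Real.pi_pos], by linarith⟩
  have ht : 0 < Real.tan (θ / 2) := Real.tan_pos_of_pos_of_lt_pi_div_two (by linarith) (by linarith)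
  unfold FF kk
  rw [mob_circle hc.ne']
  have : -(Real.tan (θ / 2) : ℂ) * Complex.I = (Real.tan (θ / 2) : ℂ) * (-Complex.I) := by ring
  rw [this, Complex.log_ofReal_mul ht (neg_ne_zero.2 Complex.I_ne_zero), Complex.log_neg_I]
  push_cast
  rw [← Complex.exp_add]
  congr 1
  have := Complex.I_sq
  linear_combination (-(y : ℂ) * π / 2) * this

lemma FF_down (y : ℝ) {θ : ℝ} (h0 : 0 < θ) (h1 : θ < π) :
    FF y (Complex.exp (((2 * π - θ : ℝ) : ℂ) * Complex.I)) = Real.exp (-(y * π / 2)) * kk y θ := by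
  have hc : 0 < Real.cos (θ / 2) := Real.cos_pos_of_mem_Ioo ⟨by linarith [Real.pi_pos], by linarith⟩
  have ht : 0 < Real.tan (θ / 2) := Real.tan_pos_of_pos_of_lt_pi_div_two (by linarith) (by linarith)
  have e1 : Complex.exp (((2 * π - θ : ℝ) : ℂ) * Complex.I)
      = Complex.exp (((-θ : ℝ) : ℂ) * Complex.I) := by
    have : (((2 * π - θ : ℝ) : ℂ) * Complex.I) = ((-θ : ℝ) : ℂ) * Complex.I + 2 * π * Complex.I := by
      push_cast; ring
    rw [this, Complex.exp_periodic]
  unfold FF kk
  rw [e1, mob_circle (by rw [neg_div, Real.cos_neg]; exact hc.ne'), neg_div, Real.tan_neg]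
  have : -((-Real.tan (θ / 2) : ℝ) : ℂ) * Complex.I = (Real.tan (θ / 2) : ℂ) * (Complex.I) := by
    push_cast; ring
  rw [this, Complex.log_ofReal_mul ht (Complex.I_ne_zero), Complex.log_I]
  push_cast
  rw [← Complex.exp_add]
  congr 1
  have := Complex.I_sq
  linear_combination ((y : ℂ) * π / 2) * this

lemma kk_meas (y : ℝ) : Measurable (kk y) := by
  unfold kk
  have : Measurable Real.tan := by
    have : Real.tan = fun x => Real.sin x / Real.cos x := by
      ext x; exact Real.tan_eq_sin_div_cos x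
    rw [this]
    exact Real.measurable_sin.div Real.measurable_cos
  fun_prop

lemma FF_meas (y : ℝ) : Measurable (FF y) := by
  unfold FF mob
  fun_prop

/-- mean value at radius `r` -/
lemma mean_r (y : ℝ) (n : ℕ) {r : ℝ} (h0 : 0 ≤ r) (h1 : r < 1) :
    ∫ θ in (0 : ℝ)..(2 * π), FF y (circleMap 0 r θ) * (circleMap 0 r θ) ^ (n + 1) = 0 := by
  have hd : DiffContOnCl ℂ (fun z => FF y z * z ^ (n + 1)) (Metric.ball 0 |r|) := by
    have : DifferentiableOn ℂ (fun z => FF y z * z ^ (n + 1)) (Metric.ball 0 1) :=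
      (FF_diff y).mul (differentiableOn_pow _)
    apply DifferentiableOn.diffContOnCl
    apply this.mono
    refine (Metric.closure_ball_subset_closedBall).trans ?_
    intro z hz
    rw [abs_of_nonneg h0] at hz
    simp only [Metric.mem_closedBall, dist_zero_right] at hz
    simp only [Metric.mem_ball, dist_zero_right]
    linarith
  have := hd.circleAverage
  simp only [Real.circleAverage_def] at this
  simp only [ne_eq, Nat.add_eq_zero_iff, one_ne_zero, and_false, not_false_eq_true, zero_pow,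
    mul_zero] at this
  rcases smul_eq_zero.1 this with h' | h'
  · exact absurd h' (by positivity)
  · exact h'

lemma FF_cont (y : ℝ) {θ : ℝ} (h0 : 0 < θ) (h1 : θ < 2 * π) (h2 : θ ≠ π) :
    Tendsto (fun r => FF y (circleMap 0 r θ)) (𝓝[<] 1)
      (𝓝 (FF y (Complex.exp (θ * Complex.I)))) := by
  have hc : Real.cos (θ / 2) ≠ 0 := by
    intro h
    rw [Real.cos_eq_zero_iff] at h
    obtain ⟨k, hk⟩ := h
    have hk' : θ = (2 * k + 1) * π := by linarith
    have hpi := Real.pi_pos
    have a1 : (0 : ℝ) < (2 * k + 1) := by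
      by_contra hcon
      push Not at hcon
      nlinarith
    have a2 : (2 * k + 1 : ℝ) < 2 := by
      by_contra hcon
      push Not at hcon
      nlinarith
    have a3 : k = 0 := by
      have b1 : (0 : ℤ) < 2 * k + 1 := by exact_mod_cast a1
      have b2 : (2 * k + 1 : ℤ) < 2 := by exact_mod_cast a2
      omega
    rw [a3] at hk'
    simp at hk'
    exact h2 hk'
  have hs : Real.sin (θ / 2) ≠ 0 :=
    (Real.sin_pos_of_pos_of_lt_pi (by linarith) (by linarith)).ne'
  have hslit : mob (Complex.exp (θ * Complex.I)) ∈ Complex.slitPlane := by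
    right
    rw [mob_circle hc]
    simp only [Complex.mul_im, Complex.neg_re, Complex.ofReal_re, Complex.I_im, mul_one,
      Complex.neg_im, Complex.ofReal_im, neg_zero, Complex.I_re, mul_zero, add_zero]
    rw [Real.tan_eq_sin_div_cos]
    exact neg_ne_zero.2 (div_ne_zero hs hc)
  have hne : (1 + Complex.exp (θ * Complex.I)) ≠ 0 := by
    intro h
    have : mob (Complex.exp (θ * Complex.I)) = 0 := by
      unfold mob; rw [h]; simp
    rw [this] at hslit
    simp at hslit
  have hcm : ContinuousAt mob (Complex.exp (θ * Complex.I)) := by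
    unfold mob
    exact ContinuousAt.div (by fun_prop) (by fun_prop) hne
  have hcF : ContinuousAt (FF y) (Complex.exp (θ * Complex.I)) := by
    unfold FF
    exact ((hcm.clog hslit).const_mul _).cexp
  have ht : Tendsto (fun r : ℝ => circleMap 0 r θ) (𝓝[<] 1) (𝓝 (Complex.exp (θ * Complex.I))) := by
    have : Continuous (fun r : ℝ => circleMap 0 r θ) := by
      unfold circleMap; fun_prop
    have h := this.tendsto 1
    have e : circleMap 0 1 θ = Complex.exp (θ * Complex.I) := by simp [circleMap]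
    rw [e] at h
    exact h.mono_left nhdsWithin_le_nhds
  exact hcF.tendsto.comp ht

/-- mean value on the boundary -/
lemma mean_one (y : ℝ) (n : ℕ) :
    ∫ θ in (0 : ℝ)..(2 * π), FF y (Complex.exp (θ * Complex.I))
      * (Complex.exp (θ * Complex.I)) ^ (n + 1) = 0 := by
  have hpi := Real.pi_pos
  have hlim : Tendsto (fun r : ℝ => ∫ θ in (0 : ℝ)..(2 * π),
      FF y (circleMap 0 r θ) * (circleMap 0 r θ) ^ (n + 1)) (𝓝[<] 1)
      (𝓝 (∫ θ in (0 : ℝ)..(2 * π), FF y (Complex.exp (θ * Complex.I))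
      * (Complex.exp (θ * Complex.I)) ^ (n + 1))) := by
    apply intervalIntegral.tendsto_integral_filter_of_dominated_convergence
      (fun _ => Real.exp (|y| * π))
    · filter_upwards with r
      apply Measurable.aestronglyMeasurable
      have : Measurable (fun θ : ℝ => circleMap 0 r θ) := (continuous_circleMap 0 r).measurable
      exact ((FF_meas y).comp this).mul (this.pow_const _)
    · have hI : Ioo (0 : ℝ) 1 ∈ 𝓝[<] (1 : ℝ) := Ioo_mem_nhdsLT one_pos
      filter_upwards [hI] with r hr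
      filter_upwards with θ hθ
      rw [norm_mul, norm_pow, norm_circleMap_zero]
      have : |r| ^ (n + 1) ≤ 1 := pow_le_one₀ (abs_nonneg _) (by rw [abs_of_pos hr.1]; exact hr.2.le)
      calc ‖FF y (circleMap 0 r θ)‖ * |r| ^ (n + 1) ≤ Real.exp (|y| * π) * 1 :=
            mul_le_mul (FF_bound y _) this (by positivity) (by positivity)
        _ = _ := mul_one _
    · exact intervalIntegrable_const
    · have hne : ∀ᵐ θ : ℝ ∂volume, θ ≠ π ∧ θ ≠ 2 * π := by
        have a1 : ∀ᵐ θ : ℝ ∂volume, θ ≠ π := by simp [ae_iff]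
        have a2 : ∀ᵐ θ : ℝ ∂volume, θ ≠ 2 * π := by simp [ae_iff]
        filter_upwards [a1, a2] with θ h1 h2 using ⟨h1, h2⟩
      filter_upwards [hne] with θ hθ hm
      rw [uIoc_of_le (by linarith)] at hm
      have hlt : θ < 2 * π := lt_of_le_of_ne hm.2 hθ.2
      apply (FF_cont y hm.1 hlt hθ.1).mul
      have : Continuous (fun r : ℝ => circleMap 0 r θ ^ (n + 1)) := by
        unfold circleMap; fun_prop
      have h := this.tendsto 1
      have e : circleMap 0 1 θ = Complex.exp (θ * Complex.I) := by simp [circleMap]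
      simp only [e] at h
      exact h.mono_left nhdsWithin_le_nhds
  have hz : Tendsto (fun r : ℝ => ∫ θ in (0 : ℝ)..(2 * π),
      FF y (circleMap 0 r θ) * (circleMap 0 r θ) ^ (n + 1)) (𝓝[<] 1) (𝓝 0) := by
    apply tendsto_const_nhds.congr'
    have hI : Ioo (0 : ℝ) 1 ∈ 𝓝[<] (1 : ℝ) := Ioo_mem_nhdsLT one_pos
    filter_upwards [hI] with r hr
    exact (mean_r y n hr.1.le hr.2).symm
  exact tendsto_nhds_unique hlim hz

lemma kk_int (y : ℝ) : Integrable (kk y) (volume.restrict (Ioo 0 π)) := by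
  apply Integrable.of_bound (kk_meas y).aestronglyMeasurable 1
  filter_upwards with t
  rw [kk_norm]

/-- the two-sided relation -/
lemma two_sided (y : ℝ) (n : ℕ) :
    Real.exp (y * π / 2) * (∫ t in Ioo 0 π, kk y t * Complex.exp (((n + 1 : ℕ) : ℂ) * t * Complex.I))
    + Real.exp (-(y * π / 2)) *
      (∫ t in Ioo 0 π, kk y t * Complex.exp (-(((n + 1 : ℕ) : ℂ) * t * Complex.I))) = 0 := by
  have hpi := Real.pi_pos
  have h := mean_one y n
  set G : ℝ → ℂ := fun θ => FF y (Complex.exp (θ * Complex.I))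
      * (Complex.exp (θ * Complex.I)) ^ (n + 1) with hG
  have hmeas : Measurable G := by
    have h1 : Measurable (fun θ : ℝ => Complex.exp (θ * Complex.I)) := by fun_prop
    exact ((FF_meas y).comp h1).mul (h1.pow_const _)
  have hbd : ∀ θ, ‖G θ‖ ≤ Real.exp (|y| * π) := by
    intro θ
    simp only [hG]
    rw [norm_mul, norm_pow, Complex.norm_exp_ofReal_mul_I, one_pow, mul_one]
    exact FF_bound y _
  have hint : ∀ a b : ℝ, IntervalIntegrable G volume a b := by
    intro a b
    rw [intervalIntegrable_iff]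
    have : IsFiniteMeasure (volume.restrict (uIoc a b)) := by
      constructor
      simp [uIoc]
    exact Integrable.of_bound hmeas.aestronglyMeasurable (Real.exp (|y| * π))
      (Eventually.of_forall hbd)
  have hsplit := intervalIntegral.integral_add_adjacent_intervals (hint 0 π) (hint π (2 * π))
  have hrefl : ∫ θ in π..(2 * π), G θ = ∫ θ in (0 : ℝ)..π, G (2 * π - θ) := by
    rw [intervalIntegral.integral_comp_sub_left]
    congr 1 <;> ring
  rw [hrefl] at hsplit
  have e1 : ∫ θ in (0 : ℝ)..π, G θ = Real.exp (y * π / 2) *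
      (∫ t in Ioo 0 π, kk y t * Complex.exp (((n + 1 : ℕ) : ℂ) * t * Complex.I)) := by
    rw [intervalIntegral.integral_of_le hpi.le, integral_Ioc_eq_integral_Ioo, ← integral_const_mul]
    apply setIntegral_congr_fun measurableSet_Ioo
    intro t ht
    simp only [hG]
    rw [FF_up y ht.1 ht.2, ← Complex.exp_nat_mul]
    push_cast
    ring_nf
  have e2 : ∫ θ in (0 : ℝ)..π, G (2 * π - θ) = Real.exp (-(y * π / 2)) *
      (∫ t in Ioo 0 π, kk y t * Complex.exp (-(((n + 1 : ℕ) : ℂ) * t * Complex.I))) := by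
    rw [intervalIntegral.integral_of_le hpi.le, integral_Ioc_eq_integral_Ioo, ← integral_const_mul]
    apply setIntegral_congr_fun measurableSet_Ioo
    intro t ht
    simp only [hG]
    rw [FF_down y ht.1 ht.2]
    have : Complex.exp (((2 * π - t : ℝ) : ℂ) * Complex.I) = Complex.exp (-(t * Complex.I)) := by
      have : (((2 * π - t : ℝ) : ℂ) * Complex.I) = -(t * Complex.I) + 2 * π * Complex.I := by
        push_cast; ring
      rw [this, Complex.exp_periodic]
    rw [this, ← Complex.exp_nat_mul]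
    push_cast
    ring_nf
  rw [← e1, ← e2, hsplit]
  exact h

/-- the eigenvalue -/
def lam (y : ℝ) : ℂ := -Complex.I * ((Real.exp (y * π / 2) - Real.exp (-(y * π / 2)))
  / (Real.exp (y * π / 2) + Real.exp (-(y * π / 2))))

lemma lam_norm (y : ℝ) : ‖lam y‖ < 1 := by
  unfold lam
  have ha := Real.exp_pos (y * π / 2)
  have hb := Real.exp_pos (-(y * π / 2))
  rw [norm_mul, norm_neg, Complex.norm_I, one_mul, norm_div]
  have e1 : ((Real.exp (y * π / 2) : ℂ) - Real.exp (-(y * π / 2)))
      = ((Real.exp (y * π / 2) - Real.exp (-(y * π / 2)) : ℝ) : ℂ) := by push_cast; ring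
  have e2 : ((Real.exp (y * π / 2) : ℂ) + Real.exp (-(y * π / 2)))
      = ((Real.exp (y * π / 2) + Real.exp (-(y * π / 2)) : ℝ) : ℂ) := by push_cast; ring
  rw [e1, e2, Complex.norm_real, Complex.norm_real, Real.norm_eq_abs, Real.norm_eq_abs,
    abs_of_pos (by positivity : 0 < Real.exp (y * π / 2) + Real.exp (-(y * π / 2))),
    div_lt_one (by positivity), abs_lt]
  constructor <;> linarith

/-- Cosine integrals are multiples of sine integrals. -/
lemma cos_eq_lam_sin (y : ℝ) (n : ℕ) :
    ∫ t in Ioo 0 π, (Real.cos ((n + 1 : ℕ) * t) : ℂ) * kk y t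
      = lam y * ∫ t in Ioo 0 π, (Real.sin ((n + 1 : ℕ) * t) : ℂ) * kk y t := by
  have hk := kk_int y
  have hp : Integrable (fun t : ℝ => kk y t * Complex.exp (((n + 1 : ℕ) : ℂ) * t * Complex.I))
      (volume.restrict (Ioo 0 π)) := by
    refine hk.mul_bdd (c := 1) (Continuous.aestronglyMeasurable (by fun_prop)) ?_
    filter_upwards with x
    rw [show (((n + 1 : ℕ) : ℂ) * x * Complex.I : ℂ) = (((n + 1 : ℕ) * x : ℝ) : ℂ) * Complex.I by
      push_cast; ring]
    rw [Complex.norm_exp_ofReal_mul_I]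
  have hm : Integrable (fun t : ℝ => kk y t * Complex.exp (-(((n + 1 : ℕ) : ℂ) * t * Complex.I)))
      (volume.restrict (Ioo 0 π)) := by
    refine hk.mul_bdd (c := 1) (Continuous.aestronglyMeasurable (by fun_prop)) ?_
    filter_upwards with x
    rw [show (-(((n + 1 : ℕ) : ℂ) * x * Complex.I) : ℂ)
      = ((-((n + 1 : ℕ) * x) : ℝ) : ℂ) * Complex.I by
      push_cast; ring]
    rw [Complex.norm_exp_ofReal_mul_I]
  have h := two_sided y n
  set P := ∫ t in Ioo 0 π, kk y t * Complex.exp (((n + 1 : ℕ) : ℂ) * t * Complex.I) with hP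
  set M := ∫ t in Ioo 0 π, kk y t * Complex.exp (-(((n + 1 : ℕ) : ℂ) * t * Complex.I)) with hM
  have hC : ∫ t in Ioo 0 π, (Real.cos ((n + 1 : ℕ) * t) : ℂ) * kk y t = (1 / 2) * (P + M) := by
    rw [hP, hM, ← integral_add hp hm, ← integral_const_mul]
    congr 1
    ext t
    push_cast
    rw [Complex.cos]
    ring_nf
  have hS : ∫ t in Ioo 0 π, (Real.sin ((n + 1 : ℕ) * t) : ℂ) * kk y t
      = (Complex.I / 2) * (M - P) := by
    rw [hP, hM, ← integral_sub hm hp, ← integral_const_mul]
    congr 1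
    ext t
    push_cast
    rw [Complex.sin]
    ring_nf
  rw [hC, hS]
  unfold lam
  have ha := Real.exp_pos (y * π / 2)
  have hb := Real.exp_pos (-(y * π / 2))
  have hne : ((Real.exp (y * π / 2) : ℂ) + Real.exp (-(y * π / 2))) ≠ 0 := by
    have e2 : ((Real.exp (y * π / 2) : ℂ) + Real.exp (-(y * π / 2)))
      = ((Real.exp (y * π / 2) + Real.exp (-(y * π / 2)) : ℝ) : ℂ) := by push_cast; ring
    rw [e2]
    exact_mod_cast (by positivity : Real.exp (y * π / 2) + Real.exp (-(y * π / 2)) ≠ 0)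
  set a : ℂ := (Real.exp (y * π / 2) : ℂ)
  set b : ℂ := (Real.exp (-(y * π / 2)) : ℂ)
  field_simp
  have := Complex.I_sq
  linear_combination (2 : ℂ) * h + (a - b) * (M - P) * this

end

end Pool.Agent.Q93.Sine
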