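import Pool.Agent.Q93.Sine.Kern

open MeasureTheory Set Real Filter Topology

namespace Pool.Agent.Q93.Sine

noncomputable section

/-- the change of variable -/
def phi (t : ℝ) : ℝ := Real.log (Real.tan (t / 2))

/-- its inverse -/
def psi (x : ℝ) : ℝ := 2 * Real.arctan (Real.exp x)

lemma psi_phi {t : ℝ} (h0 : 0 < t) (h1 : t < π) : psi (phi t) = t := by
  unfold psi phi
  have ht : 0 < Real.tan (t / 2) := Real.tan_pos_of_pos_of_lt_pi_div_two (by linarith) (by linarith)
  rw [Real.exp_log ht, Real.arctan_tan (by linarith) (by linarith)]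
  ring

lemma phi_meas : Measurable phi := by
  unfold phi
  have : Measurable Real.tan := by
    have : Real.tan = fun x => Real.sin x / Real.cos x := by
      ext x; exact Real.tan_eq_sin_div_cos x
    rw [this]
    exact Real.measurable_sin.div Real.measurable_cos
  fun_prop

lemma psi_meas : Measurable psi := by
  unfold psi
  exact (Real.continuous_arctan.measurable.comp Real.measurable_exp).const_mul 2

/-- uniqueness for real functions -/
lemma real_zero (g : ℝ → ℝ) (hg : Integrable g (volume.restrict (Ioo 0 π)))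
    (h : ∀ y : ℝ, ∫ t in Ioo 0 π, (g t : ℂ) * kk y t = 0) :
    g =ᵐ[volume.restrict (Ioo 0 π)] 0 := by
  set μ : Measure ℝ := volume.restrict (Ioo 0 π) with hμ
  have hfin : ∀ u : ℝ → ℝ, Integrable u μ →
      IsFiniteMeasure (μ.withDensity (fun t => ENNReal.ofReal (u t))) := by
    intro u hu
    apply isFiniteMeasure_withDensity_ofReal hu.2
  have hchar : ∀ u : ℝ → ℝ, Integrable u μ → ∀ y : ℝ,
      charFun ((μ.withDensity (fun t => ENNReal.ofReal (u t))).map phi) y
        = ∫ t, ((max (u t) 0 : ℝ) : ℂ) * kk y t ∂μ := by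
    intro u hu y
    rw [charFun_apply_real, integral_map phi_meas.aemeasurable
      (Continuous.aestronglyMeasurable (by fun_prop))]
    rw [integral_withDensity_eq_integral_toReal_smul₀ hu.aemeasurable.ennreal_ofReal
      (Eventually.of_forall fun _ => ENNReal.ofReal_lt_top)]
    congr 1
    ext t
    rw [ENNReal.toReal_ofReal']
    rw [Complex.real_smul]
    congr 1
    unfold kk phi
    push_cast
    rfl
  have h1 := hfin g hg
  have h2 := hfin (fun t => -g t) hg.neg
  have hpos : Integrable (fun t => ((max (g t) 0 : ℝ) : ℂ)) μ := hg.pos_part.ofReal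
  have hneg : Integrable (fun t => ((max (-g t) 0 : ℝ) : ℂ)) μ := hg.neg.pos_part.ofReal
  have hb : ∀ G : ℝ → ℂ, Integrable G μ → ∀ y, Integrable (fun t => G t * kk y t) μ := by
    intro G hG y
    refine hG.mul_bdd (c := 1) (kk_meas y).aestronglyMeasurable ?_
    filter_upwards with t
    rw [kk_norm]
  have heq : (μ.withDensity (fun t => ENNReal.ofReal (g t))).map phi
      = (μ.withDensity (fun t => ENNReal.ofReal (-g t))).map phi := by
    have := Measure.isFiniteMeasure_map (μ.withDensity (fun t => ENNReal.ofReal (g t))) phi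
    have := Measure.isFiniteMeasure_map (μ.withDensity (fun t => ENNReal.ofReal (-g t))) phi
    apply Measure.ext_of_charFun
    ext y
    rw [hchar g hg y, hchar (fun t => -g t) hg.neg y, ← sub_eq_zero,
      ← integral_sub (hb _ hpos y) (hb _ hneg y), ← h y]
    congr 1
    ext t
    rw [← sub_mul]
    congr 1
    rw [← Complex.ofReal_sub]
    congr 1
    rcases le_total 0 (g t) with hh | hh
    · rw [max_eq_left hh, max_eq_right (by linarith)]; ring
    · rw [max_eq_right hh, max_eq_left (by linarith)]; ring
  have hback : ∀ ν : Measure ℝ, ν ≪ μ → (ν.map phi).map psi = ν := by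
    intro ν hν
    rw [Measure.map_map psi_meas phi_meas]
    have : (psi ∘ phi) =ᵐ[ν] id := by
      apply hν.ae_le
      have hm : ∀ᵐ x ∂μ, x ∈ Ioo 0 π := ae_restrict_mem measurableSet_Ioo
      filter_upwards [hm] with t ht
      exact psi_phi ht.1 ht.2
    rw [Measure.map_congr this, Measure.map_id]
  have hnu : μ.withDensity (fun t => ENNReal.ofReal (g t))
      = μ.withDensity (fun t => ENNReal.ofReal (-g t)) := by
    rw [← hback _ (withDensity_absolutelyContinuous _ _), heq,
      hback _ (withDensity_absolutelyContinuous _ _)]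
  have hnu2 := (withDensity_eq_iff_of_sigmaFinite (f := fun t => ENNReal.ofReal (g t))
    (g := fun t => ENNReal.ofReal (-g t)) hg.aemeasurable.ennreal_ofReal
    hg.neg.aemeasurable.ennreal_ofReal).1 hnu
  filter_upwards [hnu2] with t ht
  rcases lt_trichotomy (g t) 0 with hh | hh | hh
  · exfalso
    rw [ENNReal.ofReal_of_nonpos hh.le] at ht
    have := ENNReal.ofReal_pos.2 (by linarith : 0 < -g t)
    rw [← ht] at this
    exact lt_irrefl _ this
  · exact hh
  · exfalso
    rw [ENNReal.ofReal_of_nonpos (by linarith : -g t ≤ 0)] at ht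
    have := ENNReal.ofReal_pos.2 hh
    rw [ht] at this
    exact lt_irrefl _ this

lemma kk_conj (y t : ℝ) : (starRingEnd ℂ) (kk y t) = kk (-y) t := by
  unfold kk
  rw [← Complex.exp_conj]
  congr 1
  simp

/-- uniqueness for complex functions -/
lemma complex_zero (f : ℝ → ℂ) (hf : Integrable f (volume.restrict (Ioo 0 π)))
    (h : ∀ y : ℝ, ∫ t in Ioo 0 π, f t * kk y t = 0) :
    f =ᵐ[volume.restrict (Ioo 0 π)] 0 := by
  set μ : Measure ℝ := volume.restrict (Ioo 0 π) with hμ
  have hb : ∀ G : ℝ → ℂ, Integrable G μ → ∀ y, Integrable (fun t => G t * kk y t) μ := by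
    intro G hG y
    refine hG.mul_bdd (c := 1) (kk_meas y).aestronglyMeasurable ?_
    filter_upwards with t
    rw [kk_norm]
  have hc : Integrable (fun t => (starRingEnd ℂ) (f t)) μ := by
    exact (RCLike.conjLIE.integrable_comp_iff (μ := μ) (φ := f)).2 hf
  have h' : ∀ y : ℝ, ∫ t, (starRingEnd ℂ) (f t) * kk y t ∂μ = 0 := by
    intro y
    have := h (-y)
    have h2 := congrArg (starRingEnd ℂ) this
    rw [← integral_conj, map_zero] at h2
    rw [← h2]
    congr 1
    ext t
    rw [map_mul, kk_conj, neg_neg]
  have hre : (fun t => (f t).re) =ᵐ[μ] 0 := by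
    apply real_zero _ hf.re
    intro y
    have : ∀ t, (((f t).re : ℝ) : ℂ) * kk y t = (1 / 2) * (f t * kk y t
        + (starRingEnd ℂ) (f t) * kk y t) := by
      intro t
      rw [Complex.re_eq_add_conj]
      ring
    change ∫ t, (((f t).re : ℝ) : ℂ) * kk y t ∂μ = 0
    rw [integral_congr_ae (Eventually.of_forall this)]
    rw [integral_const_mul, integral_add (hb _ hf y) (hb _ hc y), h y, h' y]
    simp
  have him : (fun t => (f t).im) =ᵐ[μ] 0 := by
    apply real_zero _ hf.im
    intro y
    have : ∀ t, (((f t).im : ℝ) : ℂ) * kk y t = (1 / (2 * Complex.I)) * (f t * kk y t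
        - (starRingEnd ℂ) (f t) * kk y t) := by
      intro t
      rw [Complex.im_eq_sub_conj]
      ring
    change ∫ t, (((f t).im : ℝ) : ℂ) * kk y t ∂μ = 0
    rw [integral_congr_ae (Eventually.of_forall this)]
    rw [integral_const_mul, integral_sub (hb _ hf y) (hb _ hc y), h y, h' y]
    simp
  filter_upwards [hre, him] with t h1 h2
  apply Complex.ext
  · simpa using h1
  · simpa using h2

end

end Pool.Agent.Q93.Sine
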